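import Pool.Agent.P.MP_029dcd_co.F.Defs

/-! Layer S1: the combinatorial core of the two atoms lemma. -/

set_option autoImplicit false

namespace ECub.S1

open Finset

open Classical in
/-- the rank of a real number in a finite set -/
noncomputable def rk (S : Finset ℝ) (σ : ℝ) : ℕ := (S.filter fun x => x < σ).card

theorem rk_mono (S : Finset ℝ) {σ σ' : ℝ} (h : σ ≤ σ') : rk S σ ≤ rk S σ' := by
  classical
  refine card_le_card fun x hx => ?_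
  rw [mem_filter] at hx ⊢
  exact ⟨hx.1, hx.2.trans_le h⟩

theorem rk_lt (S : Finset ℝ) {σ σ' : ℝ} (hσ : σ ∈ S) (h : σ < σ') : rk S σ < rk S σ' := by
  classical
  refine card_lt_card ⟨fun x hx => ?_, fun hsub => ?_⟩
  · rw [mem_filter] at hx ⊢
    exact ⟨hx.1, hx.2.trans h⟩
  · have := hsub (mem_filter.2 ⟨hσ, h⟩)
    exact lt_irrefl _ (mem_filter.1 this).2

theorem rk_inj (S : Finset ℝ) {σ σ' : ℝ} (hσ : σ ∈ S) (hσ' : σ' ∈ S) (h : rk S σ = rk S σ') :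
    σ = σ' := by
  rcases lt_trichotomy σ σ' with h1 | h1 | h1
  · exact absurd h (rk_lt S hσ h1).ne
  · exact h1
  · exact absurd h (rk_lt S hσ' h1).ne'

theorem rk_le (S : Finset ℝ) (σ : ℝ) : rk S σ ≤ S.card := by
  classical
  exact card_filter_le _ _

open Classical in
/-- the jump to the element whose rank differs by `h` -/
noncomputable def jmp (S : Finset ℝ) (h : ℤ) (σ : ℝ) : ℝ :=
  if hh : ∃ σ' ∈ S, (rk S σ' : ℤ) = rk S σ + h then hh.choose - σ else 0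

theorem jmp_eq (S : Finset ℝ) (h : ℤ) (σ σ' : ℝ) (hσ' : σ' ∈ S)
    (hr : (rk S σ' : ℤ) = rk S σ + h) : jmp S h σ = σ' - σ := by
  have hh : ∃ σ' ∈ S, (rk S σ' : ℤ) = rk S σ + h := ⟨σ', hσ', hr⟩
  rw [jmp, dif_pos hh]
  have h1 := hh.choose_spec
  rw [rk_inj S h1.1 hσ' (by exact_mod_cast h1.2.trans hr.symm)]

theorem div_close {J a b : ℕ} (hJ : 0 < J) (h : a / J = b / J) :
    (b : ℤ) - a ∈ Icc (-(J : ℤ)) J := by
  have h1 := Nat.div_add_mod a J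
  have h2 := Nat.div_add_mod b J
  have h3 := Nat.mod_lt a hJ
  have h4 := Nat.mod_lt b hJ
  rw [h] at h1
  rw [mem_Icc]
  omega

open Classical in
/-- most cells have a partner on the same line with close ranks -/
theorem partner {α β : Type} [DecidableEq β] (Cs : Finset α) (σ1 σ2 : α → ℝ) (ρ : α → β) (κ : β → ℝ)
    (N M J : ℕ) (h1 : (Cs.image σ1).card ≤ N) (h2 : (Cs.image σ2).card ≤ N)
    (h3 : (Cs.image ρ).card ≤ N)
    (hrel : ∀ w ∈ Cs, ∀ w' ∈ Cs, ρ w = ρ w' → σ2 w' - σ2 w = κ (ρ w) * (σ1 w' - σ1 w))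
    (hM : ∀ w ∈ Cs, (Cs.filter fun w' => ρ w' = ρ w ∧ σ1 w' = σ1 w).card ≤ M) :
    (Cs.filter fun w => ¬ ∃ w' ∈ Cs, ρ w' = ρ w ∧ σ1 w' ≠ σ1 w ∧
      rk (Cs.image σ1) (σ1 w) / J = rk (Cs.image σ1) (σ1 w') / J ∧
      rk (Cs.image σ2) (σ2 w) / J = rk (Cs.image σ2) (σ2 w') / J).card
        ≤ M * (N * (3 * (N / J) + 1)) := by
  set S1 := Cs.image σ1
  set S2 := Cs.image σ2
  let p : α → ℕ := fun w => rk S1 (σ1 w) / J
  let q : α → ℕ := fun w => rk S2 (σ2 w) / J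
  let key : α → ℤ := fun w => if 0 ≤ κ (ρ w) then (p w : ℤ) + q w else (p w : ℤ) - q w
  have hp : ∀ w, p w ≤ N / J := fun w => Nat.div_le_div_right ((rk_le _ _).trans h1)
  have hq : ∀ w, q w ≤ N / J := fun w => Nat.div_le_div_right ((rk_le _ _).trans h2)
  have hkey0 : ∀ w ∈ Cs, ∀ w' ∈ Cs, ρ w = ρ w' → key w = key w' → σ1 w ≤ σ1 w' →
      p w = p w' ∧ q w = q w' := by
    intro w hw w' hw' hρ hk hle
    have hpp : p w ≤ p w' := Nat.div_le_div_right (rk_mono _ hle)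
    have hr := hrel w hw w' hw' hρ
    simp only [key, ← hρ] at hk
    by_cases hκ : 0 ≤ κ (ρ w)
    · have : σ2 w ≤ σ2 w' := by nlinarith [mul_nonneg hκ (sub_nonneg.2 hle)]
      have hqq : q w ≤ q w' := Nat.div_le_div_right (rk_mono _ this)
      rw [if_pos hκ, if_pos hκ] at hk
      omega
    · have : σ2 w' ≤ σ2 w := by
        nlinarith [mul_nonneg (neg_nonneg.2 (not_le.1 hκ).le) (sub_nonneg.2 hle)]
      have hqq : q w' ≤ q w := Nat.div_le_div_right (rk_mono _ this)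
      rw [if_neg hκ, if_neg hκ] at hk
      omega
  have hkey : ∀ w ∈ Cs, ∀ w' ∈ Cs, ρ w = ρ w' → key w = key w' →
      p w = p w' ∧ q w = q w' := by
    intro w hw w' hw' hρ hk
    rcases le_total (σ1 w) (σ1 w') with h | h
    · exact hkey0 w hw w' hw' hρ hk h
    · have := hkey0 w' hw' w hw hρ.symm hk.symm h
      exact ⟨this.1.symm, this.2.symm⟩
  have hcard : ((Cs.image ρ) ×ˢ Icc (-((N / J : ℕ) : ℤ)) (2 * ((N / J : ℕ) : ℤ))).card ≤
      N * (3 * (N / J) + 1) := by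
    rw [card_product, Int.card_Icc]
    refine Nat.mul_le_mul h3 (le_of_eq ?_)
    omega
  refine le_trans (card_le_mul_card_image_of_maps_to (f := fun w => (ρ w, key w))
    (t := (Cs.image ρ) ×ˢ Icc (-((N / J : ℕ) : ℤ)) (2 * ((N / J : ℕ) : ℤ))) ?_ M ?_)
    (Nat.mul_le_mul_left M hcard)
  · intro w hw
    rw [mem_product, mem_Icc]
    refine ⟨mem_image_of_mem _ (mem_filter.1 hw).1, ?_⟩
    have := hp w
    have := hq w
    simp only [key]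
    split_ifs <;> omega
  · intro z _
    rcases (((Cs.filter fun w => ¬ ∃ w' ∈ Cs, ρ w' = ρ w ∧ σ1 w' ≠ σ1 w ∧
      rk S1 (σ1 w) / J = rk S1 (σ1 w') / J ∧ rk S2 (σ2 w) / J = rk S2 (σ2 w') / J)).filter
        fun w => (ρ w, key w) = z).eq_empty_or_nonempty with he | ⟨w, hw⟩
    · rw [he]; exact Nat.zero_le _
    · rw [mem_filter, mem_filter] at hw
      refine le_trans (card_le_card fun w' hw' => ?_) (hM w hw.1.1)
      rw [mem_filter, mem_filter] at hw'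
      have he := hw'.2.trans hw.2.symm
      rw [Prod.mk.injEq] at he
      refine mem_filter.2 ⟨hw'.1.1, he.1, ?_⟩
      by_contra hne
      have := hkey w hw.1.1 w' hw'.1.1 he.1.symm he.2.symm
      exact hw.1.2 ⟨w', hw'.1.1, he.1, hne, this.1, this.2⟩

/-- the combinatorial core: increments that depend only on the lines -/
theorem core (M : ℕ) (γ : ℝ) (hγ : 0 < γ) : ∃ γ' : ℝ, 0 < γ' ∧ ∃ N0 : ℕ, ∀ N, N0 ≤ N →
    ∀ {α β : Type} [DecidableEq β] (Cs : Finset α) (σ1 σ2 : α → ℝ) (ρ : α → β) (κ : β → ℝ),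
      γ * (N : ℝ) ^ 2 ≤ Cs.card → (Cs.image σ1).card ≤ N → (Cs.image σ2).card ≤ N →
      (Cs.image ρ).card ≤ N →
      (∀ w ∈ Cs, ∀ w' ∈ Cs, ρ w = ρ w' → σ2 w' - σ2 w = κ (ρ w) * (σ1 w' - σ1 w)) →
      (∀ w ∈ Cs, (Cs.filter fun w' => ρ w' = ρ w ∧ σ1 w' = σ1 w).card ≤ M) →
      ∃ (Δ1 Δ2 : ℝ → ℝ) (Cs' : Finset α), Cs' ⊆ Cs ∧ γ' * (N : ℝ) ^ 2 ≤ Cs'.card ∧
        ∀ w ∈ Cs', Δ1 (σ1 w) ≠ 0 ∧ Δ2 (σ2 w) = κ (ρ w) * Δ1 (σ1 w) := by
  obtain ⟨J, hJ⟩ := exists_nat_gt (12 * M / γ)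
  have hJ0 : 0 < J := by
    have : (0 : ℝ) < J := lt_of_le_of_lt (by positivity) hJ
    exact_mod_cast this
  have hJr : (0 : ℝ) < J := by exact_mod_cast hJ0
  refine ⟨γ / 2 / (2 * J + 1) ^ 2, by positivity, J, fun N hN α β _ Cs σ1 σ2 ρ κ hC h1 h2 h3
    hrel hM => ?_⟩
  classical
  have hbad := partner Cs σ1 σ2 ρ κ N M J h1 h2 h3 hrel hM
  set S1 := Cs.image σ1
  set S2 := Cs.image σ2
  set P : α → Prop := fun w => ∃ w' ∈ Cs, ρ w' = ρ w ∧ σ1 w' ≠ σ1 w ∧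
      rk S1 (σ1 w) / J = rk S1 (σ1 w') / J ∧ rk S2 (σ2 w) / J = rk S2 (σ2 w') / J with hP
  have hsplit := card_filter_add_card_filter_not (s := Cs) P
  have hgood : γ / 2 * (N : ℝ) ^ 2 ≤ (Cs.filter P).card := by
    have hb : ((Cs.filter fun w => ¬ P w).card : ℝ) ≤ M * (N * (3 * ((N / J : ℕ) : ℝ) + 1)) := by
      exact_mod_cast hbad
    have hd : ((N / J : ℕ) : ℝ) ≤ N / J := Nat.cast_div_le
    have hNJ : (J : ℝ) ≤ N := by exact_mod_cast hN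
    have hMJ : 12 * (M : ℝ) ≤ γ * J := by
      rw [div_lt_iff₀ hγ] at hJ; linarith
    have hN0 : (0 : ℝ) ≤ N := Nat.cast_nonneg N
    have hM0 : (0 : ℝ) ≤ M := Nat.cast_nonneg M
    have h4 : (M : ℝ) * (3 * ((N / J : ℕ) : ℝ)) ≤ γ / 4 * N := by
      have : (M : ℝ) * (3 * ((N : ℝ) / J)) ≤ γ / 4 * N := by
        rw [show (M : ℝ) * (3 * ((N : ℝ) / J)) = 3 * M * N / J by ring, div_le_iff₀ hJr]
        nlinarith
      nlinarith
    have h5 : (M : ℝ) ≤ γ / 4 * N := by nlinarith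
    have h6 : (M : ℝ) * (N * (3 * ((N / J : ℕ) : ℝ) + 1)) ≤ γ / 2 * (N : ℝ) ^ 2 := by nlinarith
    have h7 : ((Cs.filter P).card : ℝ) + (Cs.filter fun w => ¬ P w).card = Cs.card := by
      exact_mod_cast hsplit
    linarith
  have hex : ∀ w, ∃ w', P w → w' ∈ Cs ∧ ρ w' = ρ w ∧ σ1 w' ≠ σ1 w ∧
      rk S1 (σ1 w) / J = rk S1 (σ1 w') / J ∧ rk S2 (σ2 w) / J = rk S2 (σ2 w') / J := by
    intro w
    by_cases h : P w
    · obtain ⟨w', hw'⟩ := h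
      exact ⟨w', fun _ => hw'⟩
    · exact ⟨w, fun h' => absurd h' h⟩
  choose nx hnx using hex
  let hh : α → ℤ × ℤ := fun w => ((rk S1 (σ1 (nx w)) : ℤ) - rk S1 (σ1 w),
    (rk S2 (σ2 (nx w)) : ℤ) - rk S2 (σ2 w))
  have hmaps : ∀ w ∈ Cs.filter P, hh w ∈ Icc (-(J : ℤ)) J ×ˢ Icc (-(J : ℤ)) J := by
    intro w hw
    have := hnx w (mem_filter.1 hw).2
    exact mem_product.2 ⟨div_close hJ0 this.2.2.2.1, div_close hJ0 this.2.2.2.2⟩
  have hct : ((Icc (-(J : ℤ)) J ×ˢ Icc (-(J : ℤ)) J).card : ℝ) = (2 * J + 1) ^ 2 := by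
    rw [card_product, Int.card_Icc]
    have : ((J : ℤ) + 1 - -(J : ℤ)).toNat = 2 * J + 1 := by omega
    rw [this]; push_cast; ring
  obtain ⟨z, -, hz⟩ := exists_le_card_fiber_of_nsmul_le_card_of_maps_to
    (b := γ / 2 / (2 * J + 1) ^ 2 * (N : ℝ) ^ 2) hmaps
    ⟨(0, 0), by simp⟩ (by
      rw [nsmul_eq_mul, hct]
      refine le_trans (le_of_eq ?_) hgood
      field_simp)
  refine ⟨jmp S1 z.1, jmp S2 z.2, (Cs.filter P).filter fun w => hh w = z,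
    (filter_subset _ _).trans (filter_subset _ _), hz, fun w hw => ?_⟩
  rw [mem_filter, mem_filter] at hw
  obtain ⟨hw', hρ, hne, -, -⟩ := hnx w hw.1.2
  have e1 : jmp S1 z.1 (σ1 w) = σ1 (nx w) - σ1 w :=
    jmp_eq _ _ _ _ (mem_image_of_mem _ hw') (by rw [← hw.2]; simp [hh])
  have e2 : jmp S2 z.2 (σ2 w) = σ2 (nx w) - σ2 w :=
    jmp_eq _ _ _ _ (mem_image_of_mem _ hw') (by rw [← hw.2]; simp [hh])
  rw [e1, e2]
  exact ⟨sub_ne_zero.2 hne, hrel w hw.1.1 _ hw' hρ.symm⟩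

end ECub.S1
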