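import Pool.Agent.P.MP_029dcd_co.F.LayB
import Pool.Agent.P.MP_029dcd_co.F.LayU
import Pool.Agent.P.MP_029dcd_co.F.S1.Comb

/-! Layer S1: deterministic statements about one galaxy. -/

set_option autoImplicit false

namespace ECub.S1

open CubicStab Filter Finset

variable {G : Gal} {k : ℕ} {C : ℝ}

theorem tl_valid (hG : G.Ax k C) {w : Z2} (hw : G.tp w = true) (i : Fin 3) :
    G.valid (G.tlab w i) := (hG.tp_can w hw i).1

theorem tl_fam (hG : G.Ax k C) {w : Z2} (hw : G.tp w = true) (i : Fin 3) :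
    G.fam (G.tlab w i) = i := (hG.tp_can w hw i).2.1

theorem tl_slope (hG : G.Ax k C) {w : Z2} (hw : G.tp w = true) (i : Fin 3) :
    |G.t (G.tlab w i) - ctr i| ≤ 1 / 100 := by
  have := hG.slope _ (tl_valid hG hw i)
  rwa [tl_fam hG hw i] at this

theorem rep_valid (hG : G.Ax k C) {l : Lb} (hl : G.valid l) : G.valid (G.rep l) :=
  (Gal.at'_spec hG hl 0).1.1

theorem rep_same (hG : G.Ax k C) {l : Lb} (hl : G.valid l) : G.same l (G.rep l) = true :=
  (Gal.at'_spec hG hl 0).2.1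

theorem rep_t (hG : G.Ax k C) {l : Lb} (hl : G.valid l) : G.t (G.rep l) = G.t l :=
  (hG.same_t _ _ hl (rep_valid hG hl) (rep_same hG hl)).symm

theorem rep_s (hG : G.Ax k C) {l : Lb} (hl : G.valid l) : G.s (G.rep l) = G.s l :=
  (hG.same_s _ _ hl (rep_valid hG hl) (rep_same hG hl)).symm

theorem rep_fam (hG : G.Ax k C) {l : Lb} (hl : G.valid l) : G.fam (G.rep l) = G.fam l :=
  (hG.same_fam _ _ hl (rep_valid hG hl) (rep_same hG hl)).symm

/-- lines with the same slope and offset are few -/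
theorem card_rep_le (hG : G.Ax k C) (Cs : Finset Z2) (i : Fin 3) (M : ℕ)
    (h1 : ∀ w ∈ Cs, G.tp w = true ∧ G.MultLE (G.tlab w i) M)
    (h2 : ∀ w ∈ Cs, ∀ w' ∈ Cs, G.t (G.tlab w i) = G.t (G.tlab w' i) ∧
      G.s (G.tlab w i) = G.s (G.tlab w' i)) :
    (Cs.image fun w => G.rep (G.tlab w i)).card ≤ M := by
  rcases Cs.eq_empty_or_nonempty with rfl | ⟨w0, hw0⟩
  · simp
  refine (h1 w0 hw0).2 _ (fun l' hl' => ?_) (fun a ha b hb hab => ?_)
  · obtain ⟨w, hw, rfl⟩ := mem_image.1 hl'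
    have hv := tl_valid hG (h1 w hw).1 i
    refine ⟨rep_valid hG hv, ?_, ?_, ?_⟩
    · rw [rep_fam hG hv, tl_fam hG (h1 w hw).1, tl_fam hG (h1 w0 hw0).1]
    · rw [rep_t hG hv]; exact (h2 w hw w0 hw0).1
    · rw [rep_s hG hv]; exact (h2 w hw w0 hw0).2
  · obtain ⟨w, hw, rfl⟩ := mem_image.1 ha
    obtain ⟨w', hw', rfl⟩ := mem_image.1 hb
    have hv := tl_valid hG (h1 w hw).1 i
    have hv' := tl_valid hG (h1 w' hw').1 i
    rw [Gal.rep_eq_iff hG hv hv']
    exact hG.same_trans _ _ _ hv (rep_valid hG hv') hv'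
      (hG.same_trans _ _ _ hv (rep_valid hG hv) (rep_valid hG hv') (rep_same hG hv) hab)
      (hG.same_symm _ _ hv' (rep_valid hG hv') (rep_same hG hv'))

/-- two lines of a triple point determine its cell -/
theorem cell_eq (hG : G.Ax k C) {w w' : Z2} (hw : G.tp w = true) (hw' : G.tp w' = true)
    {i j : Fin 3} (hij : i ≠ j) (hi : G.rep (G.tlab w i) = G.rep (G.tlab w' i))
    (hj : G.rep (G.tlab w j) = G.rep (G.tlab w' j)) : w = w' :=
  hG.cr_uniq w _ _ w' _ _ (hG.tp_cr w hw i j hij) (hG.tp_cr w' hw' i j hij)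
    ((Gal.rep_eq_iff hG (tl_valid hG hw i) (tl_valid hG hw' i)).1 hi)
    ((Gal.rep_eq_iff hG (tl_valid hG hw j) (tl_valid hG hw' j)).1 hj)

theorem co_ne_zero {τ : Fin 3 → ℝ} (h : ∀ i, |τ i - ctr i| ≤ 1 / 100) (i : Fin 3) :
    co τ i ≠ 0 := by
  have h0 := abs_le.1 (h 0)
  have h1 := abs_le.1 (h 1)
  have h2 := abs_le.1 (h 2)
  simp only [ctr, Matrix.cons_val_zero, Matrix.cons_val_one, Matrix.cons_val_two,
    Matrix.head_cons, Matrix.tail_cons] at h0 h1 h2
  fin_cases i
  · show τ 1 - τ 2 ≠ 0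
    intro h; linarith [h1.2, h2.1]
  · show τ 2 - τ 0 ≠ 0
    intro h; linarith [h0.1, h2.2]
  · show τ 0 - τ 1 ≠ 0
    intro h; linarith [h0.1, h1.2]

theorem co_sum (hG : G.Ax k C) {w : Z2} (hw : G.tp w = true) :
    ∑ i, co (fun m => G.t (G.tlab w m)) i * G.s (G.tlab w i) = 0 := by
  have h0 := hG.tp_on w hw 0
  have h1 := hG.tp_on w hw 1
  have h2 := hG.tp_on w hw 2
  simp only [Fin.sum_univ_three, co, Matrix.cons_val_zero, Matrix.cons_val_one,
    Matrix.cons_val_two, Matrix.head_cons, Matrix.tail_cons]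
  linear_combination -(G.t (G.tlab w 1) - G.t (G.tlab w 2)) * h0
    - (G.t (G.tlab w 2) - G.t (G.tlab w 0)) * h1 - (G.t (G.tlab w 0) - G.t (G.tlab w 1)) * h2

/-- a fixed ratio of the slope differences is impossible -/
theorem no_ratio (hG : G.Ax k C) (K : ℕ)
    (hK : ∀ᶠ u : ℕ in atTop, ∀ i, (((box 0 u).filter fun w => G.tp w = true).image
      fun w => G.rep (G.tlab w i)).card ≤ K * u) (γ : ℝ) (hγ : 0 < γ) (M : ℕ) (r : ℝ) :
    ¬ ∀ᶠ u : ℕ in atTop, ∃ Cs : Finset Z2, (∀ w ∈ Cs, w ∈ box 0 u ∧ G.tp w = true ∧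
      (∀ i, G.MultLE (G.tlab w i) M) ∧ G.t (G.tlab w 0) - G.t (G.tlab w 1) =
        r * (G.t (G.tlab w 1) - G.t (G.tlab w 2))) ∧ γ * (u : ℝ) ^ 2 ≤ Cs.card := by
  classical
  intro h
  refine nadd G hG K hK (ℝ × ℝ) γ hγ M (h.mono fun u ⟨Cs, hC, hc⟩ => ?_)
  let a : Fin 3 → ℝ := ![1, -1 - r, r]
  refine ⟨Cs, fun i l => a i • (G.t l, G.s l), fun w hw => ⟨(hC w hw).1, (hC w hw).2.1⟩, hc,
    fun i w hw w' hw' hs => ?_, fun w hw => ?_, fun i y => ?_⟩
  · have hv := tl_valid hG (hC w hw).2.1 i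
    have hv' := tl_valid hG (hC w' hw').2.1 i
    simp only [hG.same_t _ _ hv hv' hs, hG.same_s _ _ hv hv' hs]
  · have h0 := hG.tp_on w (hC w hw).2.1 0
    have h1 := hG.tp_on w (hC w hw).2.1 1
    have h2 := hG.tp_on w (hC w hw).2.1 2
    have h3 := (hC w hw).2.2.2
    refine Prod.ext ?_ ?_
    · simp only [Fin.sum_univ_three, a, Matrix.cons_val_zero, Matrix.cons_val_one,
        Matrix.cons_val_two, Matrix.head_cons, Matrix.tail_cons, Prod.fst_add, Prod.smul_fst,
        smul_eq_mul, Prod.fst_zero]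
      linear_combination h3
    · simp only [Fin.sum_univ_three, a, Matrix.cons_val_zero, Matrix.cons_val_one,
        Matrix.cons_val_two, Matrix.head_cons, Matrix.tail_cons, Prod.snd_add, Prod.smul_snd,
        smul_eq_mul, Prod.snd_zero]
      linear_combination -h0 + (1 + r) * h1 - r * h2 - (G.v w).1 * h3
  · refine le_trans (le_of_eq (by congr)) (card_rep_le hG
      (Cs.filter fun w => a i • (G.t (G.tlab w i), G.s (G.tlab w i)) = y) i M
      (fun w hw => ?_) fun w hw w' hw' => ?_)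
    · have := hC w (mem_filter.1 hw).1
      exact ⟨this.2.1, this.2.2.1 i⟩
    · have h1 := hC w (mem_filter.1 hw).1
      have ha : a i ≠ 0 := by
        have c0 := co_ne_zero (tl_slope hG h1.2.1) 1
        have c1 := co_ne_zero (tl_slope hG h1.2.1) 2
        have h3 := h1.2.2.2
        simp only [co, Matrix.cons_val_zero, Matrix.cons_val_one,
          Matrix.cons_val_two, Matrix.head_cons, Matrix.tail_cons] at c0 c1
        fin_cases i
        · exact one_ne_zero
        · show -1 - r ≠ 0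
          intro h; apply c0
          have : r = -1 := by linarith
          rw [this] at h3; linarith
        · show r ≠ 0
          intro h; apply c1
          rw [h3, h, zero_mul]
      have he := (mem_filter.1 hw).2.trans (mem_filter.1 hw').2.symm
      have := smul_right_injective (ℝ × ℝ) ha he
      exact Prod.mk.inj this

theorem third {i j : Fin 3} (hij : i ≠ j) : ∃ l : Fin 3, l ≠ i ∧ l ≠ j ∧
    (∀ m, m = i ∨ m = j ∨ m = l) ∧ ∀ f : Fin 3 → ℝ, ∑ m, f m = f i + f j + f l := by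
  fin_cases i <;> fin_cases j <;> first
    | exact absurd rfl hij
    | exact ⟨2, by decide, by decide, by decide, fun f => by
        simp only [Fin.sum_univ_three]; first | rfl | (simp; ring)⟩
    | exact ⟨1, by decide, by decide, by decide, fun f => by
        simp only [Fin.sum_univ_three]; first | rfl | (simp; ring)⟩
    | exact ⟨0, by decide, by decide, by decide, fun f => by
        simp only [Fin.sum_univ_three]; first | rfl | (simp; ring)⟩

theorem same_side {i l : Fin 3} (h : l ≠ i) {a t t' : ℝ} (ha : |a - ctr i| ≤ 1 / 100)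
    (ht : |t - ctr l| ≤ 1 / 100) (ht' : |t' - ctr l| ≤ 1 / 100) : 0 < (t - a) * (t' - a) := by
  have h1 := abs_le.1 ha
  have h2 := abs_le.1 ht
  have h3 := abs_le.1 ht'
  have : ctr l + 1 ≤ ctr i ∨ ctr i + 1 ≤ ctr l := by
    fin_cases i <;> fin_cases l <;> first | exact absurd rfl h | simp [ctr]
  rcases this with h4 | h4
  · exact mul_pos_of_neg_of_neg (by linarith [h1.1, h2.2]) (by linarith [h1.1, h3.2])
  · exact mul_pos (by linarith [h1.2, h2.1]) (by linarith [h1.2, h3.1])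

theorem kappa_inj {a b t t' : ℝ} (hab : a ≠ b) (ha : 0 < (t - a) * (t' - a))
    (hb : 0 < (t - b) * (t' - b))
    (h : Real.log |(t - b) / (t - a)| = Real.log |(t' - b) / (t' - a)|) : t = t' := by
  have h1 : t - a ≠ 0 := fun h => by rw [h, zero_mul] at ha; exact lt_irrefl _ ha
  have h2 : t' - a ≠ 0 := fun h => by rw [h, mul_zero] at ha; exact lt_irrefl _ ha
  have h3 : t - b ≠ 0 := fun h => by rw [h, zero_mul] at hb; exact lt_irrefl _ hb
  have h4 : t' - b ≠ 0 := fun h => by rw [h, mul_zero] at hb; exact lt_irrefl _ hb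
  have h5 := Real.log_injOn_pos (Set.mem_Ioi.2 (abs_pos.2 (div_ne_zero h3 h1)))
    (Set.mem_Ioi.2 (abs_pos.2 (div_ne_zero h4 h2))) h
  rcases abs_eq_abs.1 h5 with h6 | h6
  · rw [div_eq_div_iff h1 h2] at h6
    have : (t - t') * (b - a) = 0 := by linear_combination h6
    rcases mul_eq_zero.1 this with h7 | h7
    · linarith
    · exact absurd (by linarith) hab
  · rw [← neg_div, div_eq_div_iff h1 h2] at h6
    have h7 := mul_pos ha hb
    have h8 : (t - a) * (t' - a) * ((t - b) * (t' - b)) = -((t' - b) * (t - a)) ^ 2 := by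
      linear_combination ((t' - b) * (t - a)) * h6
    nlinarith [sq_nonneg ((t' - b) * (t - a))]

/-- two fixed slopes are impossible -/
theorem no_two (hG : G.Ax k C) (K : ℕ)
    (hK : ∀ᶠ u : ℕ in atTop, ∀ i, (((box 0 u).filter fun w => G.tp w = true).image
      fun w => G.rep (G.tlab w i)).card ≤ K * u) (γ : ℝ) (hγ : 0 < γ) (M : ℕ)
    (i j : Fin 3) (hij : i ≠ j) (a b : ℝ) :
    ¬ ∀ᶠ u : ℕ in atTop, ∃ Cs : Finset Z2, (∀ w ∈ Cs, w ∈ box 0 u ∧ G.tp w = true ∧
      (∀ m, G.MultLE (G.tlab w m) M) ∧ G.t (G.tlab w i) = a ∧ G.t (G.tlab w j) = b) ∧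
      γ * (u : ℝ) ^ 2 ≤ Cs.card := by
  classical
  intro h
  obtain ⟨l, hli, hlj, hall, hsum⟩ := third hij
  obtain ⟨γ', hγ', N0, hcore⟩ := core M (γ / ((K : ℝ) + 1) ^ 2) (by positivity)
  refine nglue G hG K hK ℝ γ' hγ' M ?_
  filter_upwards [h, hK, eventually_ge_atTop N0] with u ⟨Cs, hC, hc⟩ hKu hu
  have hsub : Cs ⊆ (box 0 u).filter fun w => G.tp w = true := fun w hw =>
    mem_filter.2 ⟨(hC w hw).1, (hC w hw).2.1⟩
  have hrep : ∀ m, (Cs.image fun w => G.rep (G.tlab w m)).card ≤ (K + 1) * u := fun m =>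
    ((card_le_card (image_subset_image hsub)).trans (hKu m)).trans
      (Nat.mul_le_mul_right u (Nat.le_succ K))
  have hoff : ∀ m, (Cs.image fun w => G.s (G.tlab w m)).card ≤ (K + 1) * u := by
    intro m
    have : (Cs.image fun w => G.s (G.tlab w m)) =
        (Cs.image fun w => G.rep (G.tlab w m)).image G.s := by
      rw [image_image]
      exact image_congr fun w hw => (rep_s hG (tl_valid hG (hC w hw).2.1 m)).symm
    rw [this]
    exact card_image_le.trans (hrep m)
  let κ : ℝ → ℝ := fun t => (t - b) / (t - a)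
  have hsa : ∀ w ∈ Cs, ∀ t', |t' - ctr l| ≤ 1 / 100 →
      0 < (G.t (G.tlab w l) - a) * (t' - a) := fun w hw t' ht' =>
    same_side hli ((hC w hw).2.2.2.1 ▸ tl_slope hG (hC w hw).2.1 i)
      (tl_slope hG (hC w hw).2.1 l) ht'
  have hsb : ∀ w ∈ Cs, ∀ t', |t' - ctr l| ≤ 1 / 100 →
      0 < (G.t (G.tlab w l) - b) * (t' - b) := fun w hw t' ht' =>
    same_side hlj ((hC w hw).2.2.2.2 ▸ tl_slope hG (hC w hw).2.1 j)
      (tl_slope hG (hC w hw).2.1 l) ht'
  have hna : ∀ w ∈ Cs, G.t (G.tlab w l) - a ≠ 0 := fun w hw h0 => by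
    have := hsa w hw _ (tl_slope hG (hC w hw).2.1 l)
    rw [h0, zero_mul] at this
    exact lt_irrefl _ this
  have hnb : ∀ w ∈ Cs, G.t (G.tlab w l) - b ≠ 0 := fun w hw h0 => by
    have := hsb w hw _ (tl_slope hG (hC w hw).2.1 l)
    rw [h0, zero_mul] at this
    exact lt_irrefl _ this
  have hab : ∀ w ∈ Cs, a ≠ b := fun w hw h0 => by
    have := same_side hij ((hC w hw).2.2.2.2 ▸ tl_slope hG (hC w hw).2.1 j)
      ((hC w hw).2.2.2.1 ▸ tl_slope hG (hC w hw).2.1 i)
      ((hC w hw).2.2.2.1 ▸ tl_slope hG (hC w hw).2.1 i)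
    rw [h0, sub_self, zero_mul] at this
    exact lt_irrefl _ this
  obtain ⟨Δ1, Δ2, Cs', hsub', hc', hΔ⟩ := hcore ((K + 1) * u)
    (hu.trans (Nat.le_mul_of_pos_left u (Nat.succ_pos K))) Cs (fun w => G.s (G.tlab w i))
    (fun w => G.s (G.tlab w j)) (fun w => G.rep (G.tlab w l)) (fun r => κ (G.t r))
    (by
      refine le_trans (le_of_eq ?_) hc
      push_cast; field_simp) (hoff i) (hoff j) (hrep l)
    (by
      intro w hw w' hw' hρ
      have hv := tl_valid hG (hC w hw).2.1 l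
      have hv' := tl_valid hG (hC w' hw').2.1 l
      have hs := (Gal.rep_eq_iff hG hv hv').1 hρ
      have e1 := hG.same_t _ _ hv hv' hs
      have e2 := hG.same_s _ _ hv hv' hs
      have p1 := hG.tp_on w (hC w hw).2.1 i
      have p2 := hG.tp_on w (hC w hw).2.1 j
      have p3 := hG.tp_on w (hC w hw).2.1 l
      have q1 := hG.tp_on w' (hC w' hw').2.1 i
      have q2 := hG.tp_on w' (hC w' hw').2.1 j
      have q3 := hG.tp_on w' (hC w' hw').2.1 l
      rw [(hC w hw).2.2.2.1] at p1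
      rw [(hC w hw).2.2.2.2] at p2
      rw [(hC w' hw').2.2.2.1] at q1
      rw [(hC w' hw').2.2.2.2] at q2
      rw [← e1, ← e2] at q3
      have hn := hna w hw
      simp only [κ, rep_t hG hv]
      field_simp
      linear_combination (G.t (G.tlab w l) - a) * (p2 - q2) - (G.t (G.tlab w l) - b) * (p1 - q1)
        + (a - b) * (p3 - q3))
    (by
      intro w hw
      set F := Cs.filter fun w' => G.rep (G.tlab w' l) = G.rep (G.tlab w l) ∧
        G.s (G.tlab w' i) = G.s (G.tlab w i) with hF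
      have hinj : Set.InjOn (fun w => G.rep (G.tlab w i)) F := by
        intro x hx y hy hxy
        have hx' := mem_filter.1 (mem_coe.1 hx)
        have hy' := mem_filter.1 (mem_coe.1 hy)
        exact cell_eq hG (hC x hx'.1).2.1 (hC y hy'.1).2.1 hli (hx'.2.1.trans hy'.2.1.symm) hxy
      rw [← card_image_of_injOn hinj]
      refine card_rep_le hG F i M (fun x hx => ?_) fun x hx y hy => ?_
      · have := hC x (mem_filter.1 hx).1
        exact ⟨this.2.1, this.2.2.1 i⟩
      · have hx' := mem_filter.1 hx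
        have hy' := mem_filter.1 hy
        exact ⟨(hC x hx'.1).2.2.2.1.trans (hC y hy'.1).2.2.2.1.symm,
          hx'.2.2.trans hy'.2.2.symm⟩)
  let π : Fin 3 → Lb → ℝ := fun m x => if m = i then Real.log |Δ1 (G.s x)|
    else if m = j then -Real.log |Δ2 (G.s x)| else Real.log |κ (G.t x)|
  let tr : ℝ → ℝ := fun z =>
    if hz : ∃ t, |t - ctr l| ≤ 1 / 100 ∧ Real.log |κ t| = z then hz.choose else 0
  let τ : (Fin 3 → ℝ) → Fin 3 → ℝ := fun x m => if m = i then a else if m = j then b else tr (x l)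
  have hπl : ∀ x, π l x = Real.log |κ (G.t x)| := fun x => by simp only [π, if_neg hli, if_neg hlj]
  have hτ : ∀ w ∈ Cs', ∀ x : Fin 3 → ℝ, π l (G.tlab w l) = x l →
      τ x = fun m => G.t (G.tlab w m) := by
    intro w hw x hx
    have hw' := hsub' hw
    funext m
    rcases hall m with rfl | rfl | rfl
    · simp only [τ, if_true]; exact (hC w hw').2.2.2.1.symm
    · simp only [τ, if_neg hij.symm, if_true]; exact (hC w hw').2.2.2.2.symm
    · simp only [τ, if_neg hli, if_neg hlj]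
      have hz : ∃ t, |t - ctr m| ≤ 1 / 100 ∧ Real.log |κ t| = x m :=
        ⟨_, tl_slope hG (hC w hw').2.1 m, by rw [← hx, hπl]⟩
      simp only [tr, dif_pos hz]
      have hs := hz.choose_spec
      exact (kappa_inj (hab w hw') (hsa w hw' _ hs.1) (hsb w hw' _ hs.1)
        (by rw [hπl] at hx; exact hx.trans hs.2.symm)).symm
  refine ⟨Cs', π, fun x m y => co (τ x) m * G.s y,
    fun w hw => ⟨(hC w (hsub' hw)).1, (hC w (hsub' hw)).2.1⟩, ?_,
    fun m w hw w' hw' hs => ?_, fun w hw => ⟨?_, ?_⟩, fun x m y => ?_⟩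
  · refine le_trans (mul_le_mul_of_nonneg_left ?_ hγ'.le) hc'
    have h1 : (u : ℝ) ≤ (((K + 1) * u : ℕ) : ℝ) := by
      exact_mod_cast Nat.le_mul_of_pos_left u (Nat.succ_pos K)
    exact pow_le_pow_left₀ (Nat.cast_nonneg u) h1 2
  · have hv := tl_valid hG (hC w (hsub' hw)).2.1 m
    have hv' := tl_valid hG (hC w' (hsub' hw')).2.1 m
    simp only [π, hG.same_t _ _ hv hv' hs, hG.same_s _ _ hv hv' hs, implies_true, and_self]
  · have hw' := hsub' hw
    obtain ⟨d1, d2⟩ := hΔ w hw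
    rw [rep_t hG (tl_valid hG (hC w hw').2.1 l)] at d2
    have hκ : κ (G.t (G.tlab w l)) ≠ 0 := div_ne_zero (hnb w hw') (hna w hw')
    rw [hsum, hπl]
    simp only [π, if_true, if_neg hij.symm]
    rw [d2, abs_mul, Real.log_mul (abs_ne_zero.2 hκ) (abs_ne_zero.2 d1)]
    ring
  · simp only [hτ w hw (fun j => π j (G.tlab w j)) rfl]
    exact co_sum hG (hC w (hsub' hw)).2.1
  · refine le_trans (le_of_eq (by congr)) (card_rep_le hG
      (Cs'.filter fun w => (∀ j, π j (G.tlab w j) = x j) ∧ co (τ x) m * G.s (G.tlab w m) = y) m M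
      (fun w hw => ?_) fun w hw w' hw' => ?_)
    · have := hC w (hsub' (mem_filter.1 hw).1)
      exact ⟨this.2.1, this.2.2.1 m⟩
    · have h1 := mem_filter.1 hw
      have h2 := mem_filter.1 hw'
      have e1 := hτ w h1.1 x (h1.2.1 l)
      have e2 := hτ w' h2.1 x (h2.2.1 l)
      refine ⟨congrFun (e1.symm.trans e2) m, ?_⟩
      have hc0 : co (τ x) m ≠ 0 := by
        rw [e1]; exact co_ne_zero (tl_slope hG (hC w (hsub' h1.1)).2.1) m
      exact mul_left_cancel₀ hc0 (h1.2.2.trans h2.2.2.symm)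

end ECub.S1
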