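import Pool.Agent.P.MP_029dcd_co.F.G.Alg
import Pool.Agent.P.MP_029dcd_co.F.S1.Gal

/-! Layer S1: atoms of the laws of the slopes. -/

set_option autoImplicit false

namespace ECub.S1

open CubicStab MeasureTheory Filter Topology Finset
open scoped ENNReal

open Classical in
/-- an event of positive measure occurs in a positive proportion of the cells -/
theorem pos_cells (S : Sys) (hS : S.toDyn.Erg) (B : Set S.Ω) (hB : MeasurableSet B)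
    (h0 : S.μ B ≠ 0) : ∃ γ : ℝ, 0 < γ ∧ ∀ᵐ ω ∂S.μ, ∀ᶠ u : ℕ in atTop,
      γ * (u : ℝ) ^ 2 ≤ ((box 0 u).filter fun w => S.T w ω ∈ B).card := by
  have hc : 0 < S.μ.real B := ENNReal.toReal_pos h0 (measure_ne_top _ _)
  refine ⟨S.μ.real B, hc, ?_⟩
  have hint : Integrable (B.indicator fun _ => (1 : ℝ)) S.μ :=
    (integrable_const 1).indicator hB
  filter_upwards [et2_erg S.μ S.T S.T_zero S.T_add S.mp hS _ hint] with ω hω
  rw [integral_indicator hB, setIntegral_const, smul_eq_mul, mul_one] at hω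
  filter_upwards [hω 1 _ hc] with u hu
  have h1 := hu (-(u : ℤ)) u (-(u : ℤ)) u (by omega) (by omega) (by omega) (by omega) (by omega)
    (by omega)
  have h2 : ∑ w ∈ Ico (-(u : ℤ)) u ×ˢ Ico (-(u : ℤ)) u,
      B.indicator (fun _ => (1 : ℝ)) (S.T w ω) =
      ((Ico (-(u : ℤ)) u ×ˢ Ico (-(u : ℤ)) u).filter fun w => S.T w ω ∈ B).card := by
    rw [card_filter]
    push_cast
    exact sum_congr rfl fun w _ => by rw [Set.indicator_apply]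
  have h3 : ((Ico (-(u : ℤ)) u ×ˢ Ico (-(u : ℤ)) u).filter fun w => S.T w ω ∈ B).card ≤
      ((box 0 u).filter fun w => S.T w ω ∈ B).card := by
    refine card_le_card (filter_subset_filter _ fun w hw => ?_)
    simp only [box, mem_product, mem_Ico, mem_Icc, Prod.fst_zero, Prod.snd_zero] at hw ⊢
    omega
  have h4 : (((Ico (-(u : ℤ)) u ×ˢ Ico (-(u : ℤ)) u).filter fun w => S.T w ω ∈ B).card : ℝ) ≤
      ((box 0 u).filter fun w => S.T w ω ∈ B).card := by exact_mod_cast h3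
  rw [h2] at h1
  have h5 := (abs_le.1 h1).1
  push_cast at h5
  nlinarith [mul_nonneg hc.le (sq_nonneg (u : ℝ))]

/-- a generic galaxy with many cells in a given event -/
theorem setup (S : Sys) (hS : S.toDyn.Erg) {Λ : (ℝ × ℝ) ≃L[ℝ] (ℝ × ℝ)} (hΛ : S.Lin Λ)
    (B : Set S.Ω) (hB : MeasurableSet B) (hBt : ∀ ω ∈ B, (S.Γ ω).tp 0 = true)
    (h0 : S.μ B ≠ 0) : ∃ (ω : S.Ω) (K M : ℕ) (γ : ℝ), 0 < γ ∧
      (∀ᶠ u : ℕ in atTop, ∀ i, (((box 0 u).filter fun w => (S.Γ ω).tp w = true).image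
        fun w => (S.Γ ω).rep ((S.Γ ω).tlab w i)).card ≤ K * u) ∧
      ∀ᶠ u : ℕ in atTop, ∃ Cs : Finset Z2, (∀ w ∈ Cs, w ∈ box 0 u ∧ S.T w ω ∈ B ∧
        ∀ i, (S.Γ ω).MultLE ((S.Γ ω).tlab w i) M) ∧ γ * (u : ℝ) ^ 2 ≤ Cs.card := by
  classical
  obtain ⟨M, B', hsub, hB', h0', hM⟩ := S.mult_event hΛ B hB hBt h0
  obtain ⟨γ, hγ, h1⟩ := pos_cells S hS B' hB' h0'
  obtain ⟨K, h2⟩ := S.few_tp hS hΛ
  obtain ⟨ω, hω1, hω2⟩ := (h1.and h2).exists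
  refine ⟨ω, K, M, γ, hγ, hω2, hω1.mono fun u hu => ⟨_, fun w hw => ?_, hu⟩⟩
  have hw' := mem_filter.1 hw
  exact ⟨hw'.1, hsub hw'.2, hM ω w hw'.2⟩

theorem meas_tp (S : Sys) : MeasurableSet {ω | (S.Γ ω).tp 0 = true} :=
  (S.meas.tp 0) (measurableSet_singleton true)

theorem meas_sl (S : Sys) (i : Fin 3) : Measurable fun ω => S.sl (S.tx ω i) :=
  S.measurable_sl.comp (S.measurable_tx i)

theorem noRatio (S : Sys) (hS : S.toDyn.Erg) {Λ : (ℝ × ℝ) ≃L[ℝ] (ℝ × ℝ)} (hΛ : S.Lin Λ) :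
    S.NoRatio := by
  intro r
  by_contra h0
  have hB : MeasurableSet {ω | (S.Γ ω).tp 0 = true ∧
      S.sl (S.tx ω 0) - S.sl (S.tx ω 1) = r * (S.sl (S.tx ω 1) - S.sl (S.tx ω 2))} :=
    (meas_tp S).inter (measurableSet_eq_fun ((meas_sl S 0).sub (meas_sl S 1))
      (((meas_sl S 1).sub (meas_sl S 2)).const_mul r))
  obtain ⟨ω, K, M, γ, hγ, hK, h⟩ := setup S hS hΛ _ hB (fun ω hω => hω.1) h0
  refine no_ratio (S.ax ω) K hK γ hγ M r (h.mono fun u ⟨Cs, hC, hc⟩ => ⟨Cs, fun w hw => ?_, hc⟩)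
  obtain ⟨h1, ⟨h2, h3⟩, h4⟩ := hC w hw
  rw [G.tp_shift] at h2
  simp only [G.sl_tx] at h3
  exact ⟨h1, h2, h4, h3⟩

theorem two_atoms (S : Sys) (hS : S.toDyn.Erg) {Λ : (ℝ × ℝ) ≃L[ℝ] (ℝ × ℝ)} (hΛ : S.Lin Λ)
    (i j : Fin 3) (hij : i ≠ j) (a b : ℝ) :
    S.μ {ω | (S.Γ ω).tp 0 = true ∧ S.sl (S.tx ω i) = a ∧ S.sl (S.tx ω j) = b} = 0 := by
  by_contra h0
  have hB : MeasurableSet
      {ω | (S.Γ ω).tp 0 = true ∧ S.sl (S.tx ω i) = a ∧ S.sl (S.tx ω j) = b} :=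
    (meas_tp S).inter (((meas_sl S i) (measurableSet_singleton a)).inter
      ((meas_sl S j) (measurableSet_singleton b)))
  obtain ⟨ω, K, M, γ, hγ, hK, h⟩ := setup S hS hΛ _ hB (fun ω hω => hω.1) h0
  refine no_two (S.ax ω) K hK γ hγ M i j hij a b
    (h.mono fun u ⟨Cs, hC, hc⟩ => ⟨Cs, fun w hw => ?_, hc⟩)
  obtain ⟨h1, ⟨h2, h3, h5⟩, h4⟩ := hC w hw
  rw [G.tp_shift] at h2
  rw [G.sl_tx] at h3 h5
  exact ⟨h1, h2, h4, h3, h5⟩

theorem meas_fam (S : Sys) : Measurable fun x : S.Ω × ℕ => (S.Γ x.1).fam (0, x.2) :=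
  measurable_from_prod_countable_left fun j => S.meas.fam (0, j)

theorem stage1 (S : Sys) (hS : S.toDyn.Erg) {Λ : (ℝ × ℝ) ≃L[ℝ] (ℝ × ℝ)} (hΛ : S.Lin Λ)
    (hT : S.μ {ω | (S.Γ ω).tp 0 = true} ≠ 0) :
    ∃ (b c : Fin 3) (A : Set (S.Ω × ℕ)), b ≠ c ∧ S.LineSet A ∧ S.μ (S.TA A) ≠ 0 ∧
      S.NonAt A b ∧ S.NonAt A c := by
  let At : Fin 3 → Set ℝ := fun i => {t | 0 < S.mh i {x | S.sl x = t}}
  have hAt : ∀ i, (At i).Countable := fun i =>
    Measure.countable_meas_level_set_pos S.measurable_sl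
  have hnull : ∀ i j, i ≠ j → ∀ᵐ ω ∂S.μ, ¬ ((S.Γ ω).tp 0 = true ∧ S.sl (S.tx ω i) ∈ At i ∧
      S.sl (S.tx ω j) ∈ At j) := by
    intro i j hij
    have : ∀ᵐ ω ∂S.μ, ∀ a ∈ At i, ∀ b ∈ At j, ¬ ((S.Γ ω).tp 0 = true ∧ S.sl (S.tx ω i) = a ∧
        S.sl (S.tx ω j) = b) :=
      (ae_ball_iff (hAt i)).2 fun a _ => (ae_ball_iff (hAt j)).2 fun b _ =>
        measure_eq_zero_iff_ae_notMem.1 (two_atoms S hS hΛ i j hij a b)
    exact this.mono fun ω hω h => hω _ h.2.1 _ h.2.2 ⟨h.1, rfl, rfl⟩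
  have hex : ∃ b c : Fin 3, b ≠ c ∧ S.μ {ω | (S.Γ ω).tp 0 = true ∧ S.sl (S.tx ω b) ∉ At b ∧
      S.sl (S.tx ω c) ∉ At c} ≠ 0 := by
    by_contra hcon
    have hz : ∀ b c : Fin 3, b ≠ c → ∀ᵐ ω ∂S.μ, ¬ ((S.Γ ω).tp 0 = true ∧
        S.sl (S.tx ω b) ∉ At b ∧ S.sl (S.tx ω c) ∉ At c) := fun b c hbc =>
      measure_eq_zero_iff_ae_notMem.1 (by_contra fun h => hcon ⟨b, c, hbc, h⟩)
    refine hT (measure_eq_zero_iff_ae_notMem.2 ?_)
    filter_upwards [hnull 0 1 (by decide), hnull 0 2 (by decide), hnull 1 2 (by decide),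
      hz 0 1 (by decide), hz 0 2 (by decide), hz 1 2 (by decide)] with ω h1 h2 h3 h4 h5 h6 h
    have h' : (S.Γ ω).tp 0 = true := h
    tauto
  obtain ⟨b, c, hbc, hpos⟩ := hex
  let A : Set (S.Ω × ℕ) := {x | ((S.Γ x.1).fam (0, x.2) = b → S.sl x ∉ At b) ∧
    ((S.Γ x.1).fam (0, x.2) = c → S.sl x ∉ At c)}
  have hm : ∀ i : Fin 3, MeasurableSet
      {x : S.Ω × ℕ | (S.Γ x.1).fam (0, x.2) = i → S.sl x ∉ At i} := fun i =>
    MeasurableSet.imp ((meas_fam S) (measurableSet_singleton i))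
      (S.measurable_sl (hAt i).measurableSet).compl
  have hA : MeasurableSet A := (hm b).inter (hm c)
  have hnon : ∀ i, (∀ x ∈ A, (S.Γ x.1).fam (0, x.2) = i → S.sl x ∉ At i) → S.NonAt A i := by
    intro i hi t0
    by_cases ht : t0 ∈ At i
    · have hmt : MeasurableSet {x : S.Ω × ℕ | S.sl x = t0} :=
        S.measurable_sl (measurableSet_singleton t0)
      rw [Sys.mh, Measure.restrict_apply (hA.inter hmt)]
      refine measure_mono_null (t := ∅) ?_ measure_empty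
      rintro x ⟨⟨h1, h2⟩, h3⟩
      exact hi x h1 h3.2.1 ((show S.sl x = t0 from h2) ▸ ht)
    · exact measure_mono_null Set.inter_subset_right (not_lt.1 ht |> le_zero_iff.1)
  refine ⟨b, c, A, hbc, ⟨hA, Eventually.of_forall fun ω l l' hl hl' hs => ?_⟩, ?_,
    hnon b fun x hx => hx.1, hnon c fun x hx => hx.2⟩
  · have e1 := (S.ax ω).same_fam l l' hl hl' hs
    have e2 := (S.ax ω).same_t l l' hl hl' hs
    simp only [Sys.ev, A, Set.mem_ofPred_eq, G.fam_shift, G.sl_shift, Prod.mk.eta, e1, e2]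
  · refine fun h => hpos (measure_mono_null (fun ω hω => ?_) h)
    refine ⟨hω.1, fun m => ?_⟩
    have hf : (S.Γ ω).fam (0, (S.Γ ω).tl 0 m) = m := ((S.ax ω).tp_can 0 hω.1 m).2.1
    constructor
    · intro h1
      obtain rfl : m = b := hf.symm.trans h1
      exact hω.2.1
    · intro h1
      obtain rfl : m = c := hf.symm.trans h1
      exact hω.2.2

end ECub.S1
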